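import Mathlib
import Pool.Agent.Lib.helper12.Peierls

set_option autoImplicit false

open MeasureTheory ProbabilityTheory

namespace Pool.Agent.Results.MP_38c1f8_pr.Full

/-- The 2-neighbour contamination map; a configuration is its set of infected vertices. -/
def F {V : Type} (G : SimpleGraph V) (c : Set V) : Set V :=
  {v | v ∈ c ∨ 2 ≤ (G.neighborSet v ∩ c).encard}

/-- The invasion set. -/
def Inv {V : Type} (G : SimpleGraph V) : Set (Set V) := {c | ∀ v, ∃ n, v ∈ (F G)^[n] c}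

/-- A fortress: a finite nonempty set each of whose vertices has at most one neighbour outside. -/
def Fortress {V : Type} (G : SimpleGraph V) (S : Set V) : Prop :=
  S.Finite ∧ S.Nonempty ∧ ∀ v ∈ S, (G.neighborSet v \ S).encard ≤ 1

/-- `G` with its graph metric is quasi-isometric to `ℤ²` with the `ℓ¹` (grid) metric. -/
def QIGrid {V : Type} (G : SimpleGraph V) : Prop :=
  ∃ (f : V → ℤ × ℤ) (L C : ℝ), 1 ≤ L ∧ 0 ≤ C ∧
    (∀ u v, (G.dist u v : ℝ) / L - C ≤ (|(f u).1 - (f v).1| + |(f u).2 - (f v).2| : ℤ) ∧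
      ((|(f u).1 - (f v).1| + |(f u).2 - (f v).2| : ℤ) : ℝ) ≤ L * G.dist u v + C) ∧
    ∀ z : ℤ × ℤ, ∃ v, ((|(f v).1 - z.1| + |(f v).2 - z.2| : ℤ) : ℝ) ≤ C

abbrev V := (ℤ × ℤ) × Fin 4

def t : Fin 4 → Fin 4 → V :=
  ![![(0, 1), (0, 2), ((-1, 0), 3), ((0, -1), 3)], ![(0, 0), (0, 2), (0, 3), ((-1, 0), 2)],
    ![(0, 0), (0, 1), (0, 3), ((1, 0), 1)], ![(0, 1), (0, 2), ((1, 0), 0), ((0, 1), 0)]]

def nb (u : V) (j : Fin 4) : V := (u.1 + (t u.2 j).1, (t u.2 j).2)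

lemma t1 : ∀ i j, ∃ j', t (t i j).2 j' = (-(t i j).1, i) := by decide
lemma t2 : ∀ i j, t i j ≠ (0, i) := by decide
lemma t3 : ∀ i j j', t i j = t i j' → j = j' := by decide
lemma t4 : ∀ i j, |(t i j).1.1| + |(t i j).1.2| ≤ 1 := by decide
lemma t5 : ∀ i : Fin 4, ∃ j j', j ≠ j' ∧ (i : ℤ) < 4 * ((t i j).1.1 + (t i j).1.2) + (t i j).2 ∧
  (i : ℤ) < 4 * ((t i j').1.1 + (t i j').1.2) + (t i j').2 := by decide
lemma t6 : ∀ i, ∀ a ∈ [((1, 0) : ℤ × ℤ), (0, 1)], ∀ b ∈ [((-1, 0) : ℤ × ℤ), (0, -1)], ∃ j, ∀ j',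
  j' = j ∨ (t i j').1 = 0 ∨ (t i j').1 = a ∨ (t i j').1 = b := by decide

def G : SimpleGraph V where
  Adj u v := ∃ j, v = nb u j
  symm := ⟨by
    rintro u _ ⟨j, rfl⟩
    obtain ⟨j', h⟩ := t1 u.2 j
    exact ⟨j', by simp [nb, h]⟩⟩
  loopless := ⟨fun u ⟨j, h⟩ => t2 u.2 j (by simpa [nb, Prod.ext_iff, eq_comm] using h)⟩

lemma nb_inj (u : V) : Function.Injective (nb u) := fun j j' h =>
  t3 u.2 j j' (by simpa [nb, Prod.ext_iff] using h)

def W (n : ℕ) (u v : V) : Prop := ∃ w : G.Walk u v, w.length ≤ n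

lemma W.trans {m n : ℕ} {u v x : V} (a : W m u v) (b : W n v x) : W (m + n) u x := by
  obtain ⟨a, h⟩ := a
  obtain ⟨b, k⟩ := b
  exact ⟨a.append b, by simp; omega⟩

lemma W.symm {n : ℕ} {u v : V} (a : W n u v) : W n v u := by
  obtain ⟨a, h⟩ := a
  exact ⟨a.reverse, by simpa⟩

lemma W.adj {u v : V} (j : Fin 4) (h : v = nb u j) : W 1 u v :=
  ⟨(show G.Adj u v from ⟨j, h⟩).toWalk, le_rfl⟩

lemma W.mono {m n : ℕ} {u v : V} (a : W m u v) (h : m ≤ n) : W n u v :=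
  a.imp fun _ k => k.trans h

lemma w0 (s : ℤ × ℤ) (i : Fin 4) : W 2 (s, 0) (s, i) := by
  have a : W 1 (s, 0) (s, 1) := .adj 0 (by simp [nb, t])
  fin_cases i
  · exact ⟨.nil, by simp⟩
  · exact a.mono (by simp)
  · exact (W.adj 1 (by simp [nb, t])).mono (by simp)
  · exact a.trans (.adj 2 (by simp [nb, t]))

lemma w1 (d : ℤ × ℤ) (j : Fin 4) (h : t 3 j = (d, 0)) (s : ℤ × ℤ) (k : ℤ) :
    W (3 * k.natAbs) (s, 0) (s + k • d, 0) := by
  have a : ∀ (n : ℕ) s, W (3 * n) (s, 0) (s + (n : ℤ) • d, 0) := fun n s => by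
    induction n with
    | zero => simp only [Nat.cast_zero, zero_smul, add_zero]; exact ⟨.nil, by simp⟩
    | succ n ih =>
      exact ih.trans ((w0 _ 3).trans (.adj j (by simp [nb, h, add_smul, add_assoc])))
  obtain ⟨n, rfl | rfl⟩ := k.eq_nat_or_neg
  · simpa using a n s
  · simpa using (a n (s + (-n : ℤ) • d)).symm

lemma w2 (u v : V) : W (2 + (3 * (v.1.1 - u.1.1).natAbs + (3 * (v.1.2 - u.1.2).natAbs + 2))) u v :=
  (w0 u.1 u.2).symm.trans ((w1 (1, 0) 2 rfl _ _).trans ((w1 (0, 1) 3 rfl _ _).trans (by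
    convert w0 v.1 v.2 using 2; simp [Prod.ext_iff])))

lemma w3 {u v : V} (w : G.Walk u v) : |u.1.1 - v.1.1| + |u.1.2 - v.1.2| ≤ w.length := by
  induction w with
  | nil => simp
  | @cons a b c h w ih =>
    obtain ⟨j, rfl⟩ := h
    have := t4 a.2 j
    simp only [nb, Prod.fst_add, Prod.snd_add, SimpleGraph.Walk.length_cons, Int.abs_eq_natAbs] at *
    omega

lemma stay (c : Set V) (S : Set (ℤ × ℤ)) (h0 : ∀ s ∈ S, ∀ i, (s, i) ∉ c)
    (h : ∀ s ∈ S, (∃ a ∈ [((1, 0) : ℤ × ℤ), (0, 1)], s + a ∈ S) ∧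
      ∃ b ∈ [((-1, 0) : ℤ × ℤ), (0, -1)], s + b ∈ S) (n : ℕ) :
    ∀ s ∈ S, ∀ i, (s, i) ∉ (F G)^[n] c := by
  induction n with
  | zero => exact h0
  | succ n ih =>
    intro s hs i
    rw [Function.iterate_succ_apply']
    rintro (k | k)
    · exact ih s hs i k
    obtain ⟨⟨a, a1, a2⟩, b, b1, b2⟩ := h s hs
    obtain ⟨j, hj⟩ := t6 i a a1 b b1
    refine absurd (k.trans (Set.encard_le_encard (t := {nb (s, i) j}) ?_)) (by simp)
    rintro _ ⟨⟨j', rfl⟩, k⟩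
    rcases hj j' with rfl | e | e | e
    · rfl
    all_goals exact absurd k (ih _ (by simpa [e]) _)

open Pool.Agent.Lib.helper12.Peierls in
lemma path {cl : ℤ × ℤ → Fin 4 → Prop} (h : ∀ m, Surv cl m 0) : ∃ γ : ℕ → ℤ × ℤ, γ 0 = 0 ∧
    ∀ n, (∀ k, ¬ cl ((γ n).1, (γ n).1 + (γ n).2) k) ∧
      ∃ a ∈ [((1, 0) : ℤ × ℤ), (0, 1)], γ (n + 1) = γ n + a := by
  have : ∀ p : {p : ℤ × ℤ // ∀ m, Surv cl m (p.1, p.1 + p.2)},
      ∃ q : {p : ℤ × ℤ // ∀ m, Surv cl m (p.1, p.1 + p.2)},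
      ∃ a ∈ [((1, 0) : ℤ × ℤ), (0, 1)], q.1 = p.1 + a := fun p => by
    rcases (surv_next p.2).2 with k | k
    · exact ⟨⟨p.1 + (0, 1), by simpa [add_assoc] using k⟩, _, by simp, rfl⟩
    · exact ⟨⟨p.1 + (1, 0), by simpa [add_right_comm] using k⟩, _, by simp, rfl⟩
  choose f hf using this
  exact ⟨fun n => (f^[n] ⟨0, h⟩).1, rfl, fun n => ⟨(surv_next (f^[n] ⟨0, h⟩).2).1,
    by simpa only [Function.iterate_succ_apply'] using hf _⟩⟩

open Pool.Agent.Lib.helper12.Peierls in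
theorem result : ∃ (V : Type) (G : SimpleGraph V), Infinite V ∧ G.Connected ∧
    (∀ v, (G.neighborSet v).encard = 4) ∧ QIGrid G ∧ (∀ S, ¬ Fortress G S) ∧
    ∃ p : unitInterval, 0 < p ∧ p < 1 ∧ setBernoulli Set.univ p (Inv G) < 1 := by
  have hc : G.Connected := ⟨fun u v => ⟨(w2 u v).choose⟩⟩
  refine ⟨V, G, inferInstance, hc, fun v => ?_,
    ⟨Prod.fst, 3, 2, by norm_num, by norm_num, fun u v => ⟨?_, ?_⟩, fun z => ⟨(z, 0), by simp⟩⟩,
    ?_, ⟨1 / 24 ^ 3, by norm_num, by norm_num⟩, by simp [← Subtype.coe_lt_coe],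
    by norm_num [← Subtype.coe_lt_coe], ?_⟩
  · rw [show G.neighborSet v = nb v '' Set.univ by ext; simp [G, eq_comm],
      (nb_inj v).encard_image]; simp
  · obtain ⟨w, h⟩ := w2 u v
    have : (G.dist u v : ℤ) ≤ 3 * (|u.1.1 - v.1.1| + |u.1.2 - v.1.2|) + 4 := by
      have := G.dist_le w; simp only [Int.abs_eq_natAbs]; omega
    have := (Int.cast_le (R := ℝ)).2 this
    push_cast at this ⊢; linarith
  · obtain ⟨w, h⟩ := hc.exists_walk_length_eq_dist u v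
    have := (Int.cast_le (R := ℝ)).2 (h ▸ w3 w)
    push_cast at this ⊢; linarith [Nat.cast_nonneg (α := ℝ) (G.dist u v)]
  · rintro S ⟨h1, h2, h3⟩
    obtain ⟨v, a, b⟩ := Set.exists_max_image S (fun v => 4 * (v.1.1 + v.1.2) + (v.2 : ℤ)) h1 h2
    obtain ⟨j, j', c, d, e⟩ := t5 v.2
    refine absurd ((Set.encard_le_encard (s := {nb v j, nb v j'}) ?_).trans (h3 v a))
      (by rw [Set.encard_pair ((nb_inj v).ne c)]; simp)
    rintro _ (rfl | rfl) <;> refine ⟨⟨_, rfl⟩, fun k => ?_⟩ <;> have := b _ k <;>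
      simp only [nb, Prod.fst_add, Prod.snd_add] at this <;> omega
  · let e : ℤ → (ℤ × ℤ) × Fin 4 → V := fun ε x => (ε • (x.1.1, x.1.2 - x.1.1), x.2)
    have k : ∀ ε : ℤ, ε ≠ 0 → _ := fun ε h => peierls (e ε) (fun x y k => by
      simp [e, Prod.ext_iff, h] at k ⊢; omega) ⟨1 / 24 ^ 3, by norm_num, by norm_num⟩ 24⁻¹
      (by rw [← ENNReal.inv_pow, ENNReal.le_inv_iff_mul_le]; norm_cast
          rw [← NNReal.coe_le_coe]; norm_num)
      (by rw [ENNReal.le_inv_iff_mul_le, mul_right_comm, ← div_eq_mul_inv]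
          exact ENNReal.div_le_of_le_mul (by norm_num))
    refine lt_of_le_of_lt (measure_mono fun c hc => ?_) (((measure_union_le _ _).trans
      (add_le_add (k 1 one_ne_zero) (k (-1) (by simp)))).trans_lt ?_)
    · by_contra hn
      simp only [Set.mem_union, Set.mem_ofPred_eq, not_or, not_not] at hn
      obtain ⟨n, h⟩ := hc (0, 0)
      obtain ⟨γ, a0, a1⟩ := path hn.1
      obtain ⟨δ, b0, b1⟩ := path hn.2
      refine stay c (Set.range γ ∪ Set.range (-δ)) ?_ ?_ n 0 (Or.inl ⟨0, a0⟩) 0 h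
      · rintro _ (⟨n, rfl⟩ | ⟨n, rfl⟩) i
        · simpa [e] using (a1 n).1 i
        · have := (b1 n).1 i
          simp only [e, add_sub_cancel_left, neg_one_smul] at this
          exact this
      have A : ∀ n, ∃ a ∈ [((1, 0) : ℤ × ℤ), (0, 1)], γ n + a ∈ Set.range γ ∪ Set.range (-δ) :=
        fun n => ((a1 n).2).imp fun a h => ⟨h.1, Or.inl ⟨_, h.2⟩⟩
      have N : ∀ a ∈ [((1, 0) : ℤ × ℤ), (0, 1)], -a ∈ [((-1, 0) : ℤ × ℤ), (0, -1)] := by decide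
      have B : ∀ n, ∃ a ∈ [((-1, 0) : ℤ × ℤ), (0, -1)], -δ n + a ∈ Set.range γ ∪ Set.range (-δ) :=
        fun n => by
          obtain ⟨a, h1, h2⟩ := (b1 n).2
          exact ⟨-a, N a h1, Or.inr ⟨n + 1, by simp [h2, add_comm]⟩⟩
      rintro _ (⟨n, rfl⟩ | ⟨n, rfl⟩)
      · refine ⟨A n, ?_⟩
        rcases n with _ | n
        · simpa only [a0, b0, neg_zero] using B 0
        · obtain ⟨a, h1, h2⟩ := (a1 n).2
          exact ⟨-a, N a h1, Or.inl ⟨n, by simp [h2]⟩⟩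
      · refine ⟨?_, B n⟩
        rcases n with _ | n
        · simpa only [a0, b0, neg_zero, Pi.neg_apply] using A 0
        · obtain ⟨a, h1, h2⟩ := (b1 n).2
          exact ⟨a, h1, Or.inr ⟨n, by simp [h2]⟩⟩
    · rw [← two_mul, ← mul_assoc, ← ENNReal.inv_pow, ← div_eq_mul_inv]
      exact ENNReal.div_lt_of_lt_mul (by norm_num)

end Pool.Agent.Results.MP_38c1f8_pr.Full
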